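import Pool.Agent.Q145.LY.Stm
import Pool.Agent.Q272.SZ.PWC

/-!
# Project LY, jobs CB and JT
-/

set_option autoImplicit false

namespace Pool.Agent.Q186.LY

open Finset

theorem sub_ex (y : ℕ) (hy : 1 ≤ y) (E : Finset ℕ) (hE : ∀ p ∈ E, 1 ≤ p ∧ p ≤ y) :
    y ^ 2 < ∏ p ∈ E, p → ∃ A ⊆ E, y ^ 2 < ∏ p ∈ A, p ∧ ∏ p ∈ A, p ≤ y ^ 3 := by
  classical
  induction E using Finset.induction_on with
  | empty =>
    intro h
    rw [prod_empty] at h
    have : 1 ≤ y ^ 2 := Nat.one_le_pow _ _ hy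
    omega
  | insert a s ha ih =>
    intro h
    by_cases h3 : ∏ p ∈ insert a s, p ≤ y ^ 3
    · exact ⟨insert a s, subset_rfl, h, h3⟩
    · rw [not_le, prod_insert ha] at h3
      have h4 : a ≤ y := (hE a (mem_insert_self a s)).2
      have h5 : y ^ 2 < ∏ p ∈ s, p := by
        by_contra hc
        rw [not_lt] at hc
        have : a * ∏ p ∈ s, p ≤ y * y ^ 2 := Nat.mul_le_mul h4 hc
        have e : y * y ^ 2 = y ^ 3 := by ring
        omega
      obtain ⟨A, hA, h6⟩ := ih (fun p hp => hE p (mem_insert_of_mem hp)) h5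
      exact ⟨A, hA.trans (subset_insert a s), h6⟩

theorem cb0 (y : ℕ) (D : Finset ℕ) (g : ℕ → ℝ) (hy : 1 ≤ y) (hD : ∀ p ∈ D, 1 ≤ p ∧ p ≤ y)
    (hg : ∀ p ∈ D, 0 ≤ g p) :
    ∑ E ∈ D.powerset.filter (fun E => y ^ 4 < ∏ p ∈ E, p), ∏ p ∈ E, g p ≤
    (∑ E ∈ D.powerset.filter (fun E => y ^ 2 < ∏ p ∈ E, p ∧ ∏ p ∈ E, p ≤ y ^ 3), ∏ p ∈ E, g p) *
      ∏ p ∈ D, (1 + g p) := by
  classical
  have hch : ∀ E : Finset ℕ, ∃ A : Finset ℕ, E ⊆ D → y ^ 4 < ∏ p ∈ E, p →
      (A ⊆ E ∧ y ^ 2 < ∏ p ∈ A, p ∧ ∏ p ∈ A, p ≤ y ^ 3) := by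
    intro E
    by_cases h : E ⊆ D ∧ y ^ 4 < ∏ p ∈ E, p
    · have h2 : y ^ 2 < ∏ p ∈ E, p := lt_of_le_of_lt (Nat.pow_le_pow_right hy (by norm_num)) h.2
      obtain ⟨A, hA, h3⟩ := sub_ex y hy E (fun p hp => hD p (h.1 hp)) h2
      exact ⟨A, fun _ _ => ⟨hA, h3⟩⟩
    · exact ⟨∅, fun h1 h2 => absurd ⟨h1, h2⟩ h⟩
  choose f hf using hch
  set S := D.powerset.filter (fun E => y ^ 4 < ∏ p ∈ E, p) with hS
  set T := D.powerset.filter (fun E => y ^ 2 < ∏ p ∈ E, p ∧ ∏ p ∈ E, p ≤ y ^ 3) with hT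
  have hSm : ∀ E ∈ S, E ⊆ D ∧ f E ⊆ E ∧ y ^ 2 < ∏ p ∈ f E, p ∧ ∏ p ∈ f E, p ≤ y ^ 3 := by
    intro E hE
    rw [hS, mem_filter, mem_powerset] at hE
    exact ⟨hE.1, hf E hE.1 hE.2⟩
  have hnn : ∀ E ⊆ D, 0 ≤ ∏ p ∈ E, g p := fun E hE => prod_nonneg fun p hp => hg p (hE hp)
  have h1 : ∑ E ∈ S, ∏ p ∈ E, g p =
      ∑ x ∈ S.image (fun E => (f E, E \ f E)), (∏ p ∈ x.1, g p) * ∏ p ∈ x.2, g p := by
    rw [sum_image]
    · refine sum_congr rfl fun E hE => ?_
      have := prod_sdiff (hSm E hE).2.1 (f := g)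
      rw [← this, mul_comm]
    · intro E hE E' hE' h
      have h1 := (hSm E hE).2.1
      have h2 := (hSm E' hE').2.1
      simp only [Prod.mk.injEq] at h
      rw [← union_sdiff_of_subset h1, ← union_sdiff_of_subset h2, h.2, h.1]
  rw [h1]
  have h2 : S.image (fun E => (f E, E \ f E)) ⊆ T ×ˢ D.powerset := by
    intro x hx
    rw [mem_image] at hx
    obtain ⟨E, hE, rfl⟩ := hx
    obtain ⟨a1, a2, a3, a4⟩ := hSm E hE
    rw [mem_product]
    refine ⟨?_, ?_⟩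
    · rw [hT, mem_filter, mem_powerset]
      exact ⟨a2.trans a1, a3, a4⟩
    · rw [mem_powerset]
      exact sdiff_subset.trans a1
  refine (sum_le_sum_of_subset_of_nonneg h2 fun x hx _ => ?_).trans ?_
  · rw [mem_product, hT, mem_filter, mem_powerset, mem_powerset] at hx
    exact mul_nonneg (hnn _ hx.1.1) (hnn _ hx.2)
  · rw [prod_one_add, sum_mul_sum, ← sum_product']


theorem one_le_pr {ι : Type*} (s : Finset ι) (f : ι → ℝ) (h : ∀ i ∈ s, 1 ≤ f i) :
    1 ≤ ∏ i ∈ s, f i := by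
  classical
  induction s using Finset.induction_on with
  | empty => simp
  | insert a s ha ih =>
    rw [prod_insert ha]
    exact one_le_mul_of_one_le_of_one_le (h a (mem_insert_self a s))
      (ih fun i hi => h i (mem_insert_of_mem hi))

theorem logZ {Z : ℕ} (h16 : 16 ≤ Z) : (2.7 : ℝ) ≤ Real.log Z := by
  have h1 : Real.log 16 ≤ Real.log Z := Real.log_le_log (by norm_num) (by exact_mod_cast h16)
  have h2 : Real.log 16 = 4 * Real.log 2 := by
    rw [show (16 : ℝ) = 2 ^ 4 by norm_num, Real.log_pow]; norm_num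
  have h3 := Real.log_two_gt_d9
  linarith

theorem core (z h Z : ℕ) (h0 : h ≠ 0) (hZ : h ≤ Z) (h16 : 16 ≤ Z) :
    ∏ p ∈ h.primeFactors.filter (fun p => z < p), (p : ℝ) / ((p : ℝ) - 1) ≤
      (∏ p ∈ (Icc 1 ⌈Real.log Z⌉₊).filter Nat.Prime, (1 - (p : ℝ)⁻¹)⁻¹) * Real.exp 2 := by
  classical
  have hL := logZ h16
  set L := Real.log Z with hLd
  set n := ⌈L⌉₊ with hn
  have hn1 : L ≤ n := Nat.le_ceil L
  set P := h.primeFactors.filter (fun p => z < p) with hP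
  have hPp : ∀ p ∈ P, p.Prime ∧ p ∣ h := by
    intro p hp
    rw [hP, mem_filter] at hp
    exact ⟨Nat.prime_of_mem_primeFactors hp.1, Nat.dvd_of_mem_primeFactors hp.1⟩
  have e1 : ∀ p : ℕ, p.Prime → (p : ℝ) / ((p : ℝ) - 1) = (1 - (p : ℝ)⁻¹)⁻¹ := by
    intro p hp
    have h2 : (2 : ℝ) ≤ p := by exact_mod_cast hp.two_le
    have h3 : (p : ℝ) - 1 ≠ 0 := by linarith
    have h4 : (p : ℝ) ≠ 0 := by linarith
    field_simp
  have e2 : ∀ p : ℕ, p.Prime → 1 ≤ (1 - (p : ℝ)⁻¹)⁻¹ := by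
    intro p hp
    have h2 : (2 : ℝ) ≤ p := by exact_mod_cast hp.two_le
    rw [← e1 p hp, one_le_div (by linarith)]
    linarith
  rw [← prod_filter_mul_prod_filter_not P (fun p => p ≤ n)]
  refine mul_le_mul ?_ ?_ (prod_nonneg fun p hp => ?_) (prod_nonneg fun p hp => ?_)
  · have hsub : P.filter (fun p => p ≤ n) ⊆ (Icc 1 n).filter Nat.Prime := by
      intro p hp
      rw [mem_filter] at hp
      rw [mem_filter, mem_Icc]
      exact ⟨⟨(hPp p hp.1).1.one_lt.le, hp.2⟩, (hPp p hp.1).1⟩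
    rw [← prod_sdiff hsub]
    have h1 : ∏ p ∈ P.filter (fun p => p ≤ n), (p : ℝ) / ((p : ℝ) - 1) =
        ∏ p ∈ P.filter (fun p => p ≤ n), (1 - (p : ℝ)⁻¹)⁻¹ :=
      prod_congr rfl fun p hp => e1 p (hPp p (mem_filter.1 hp).1).1
    rw [h1]
    refine le_mul_of_one_le_left (prod_nonneg fun p hp => ?_) (one_le_pr _ _ fun p hp => ?_)
    · exact zero_le_one.trans (e2 p (hPp p (mem_filter.1 hp).1).1)
    · exact e2 p (mem_filter.1 (mem_sdiff.1 hp).1).2
  · have hcard : ((P.filter (fun p => ¬ p ≤ n)).card : ℝ) ≤ 2 * L := by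
      have h1 : (P.filter (fun p => ¬ p ≤ n)).card ≤ h.primeFactors.card :=
        card_le_card ((filter_subset _ _).trans (filter_subset _ _))
      have h2 : 2 ^ h.primeFactors.card ≤ ∏ p ∈ h.primeFactors, p :=
        pow_card_le_prod _ _ _ fun p hp => (Nat.prime_of_mem_primeFactors hp).two_le
      have h3 : ∏ p ∈ h.primeFactors, p ≤ h := Nat.le_of_dvd (Nat.pos_of_ne_zero h0)
        (Nat.prod_primeFactors_dvd h)
      have h4 : (2 : ℝ) ^ h.primeFactors.card ≤ Z := by exact_mod_cast (h2.trans h3).trans hZ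
      have h5 : (h.primeFactors.card : ℝ) * Real.log 2 ≤ L := by
        rw [← Real.log_pow]
        exact Real.log_le_log (by positivity) h4
      have h6 := Real.log_two_gt_d9
      have h7 : ((P.filter (fun p => ¬ p ≤ n)).card : ℝ) ≤ h.primeFactors.card := by
        exact_mod_cast h1
      have h8 : (0 : ℝ) ≤ h.primeFactors.card := Nat.cast_nonneg _
      nlinarith
    have hn0 : (0 : ℝ) < n := by linarith
    calc ∏ p ∈ P.filter (fun p => ¬ p ≤ n), (p : ℝ) / ((p : ℝ) - 1)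
        ≤ ∏ p ∈ P.filter (fun p => ¬ p ≤ n), Real.exp (1 / n) := by
          refine prod_le_prod (fun p hp => ?_) fun p hp => ?_
          · have hp' := hPp p (mem_filter.1 hp).1
            rw [e1 p hp'.1]
            exact zero_le_one.trans (e2 p hp'.1)
          · rw [mem_filter, not_le] at hp
            have h1 : (n : ℝ) + 1 ≤ p := by exact_mod_cast hp.2
            have h2 : (0 : ℝ) < (p : ℝ) - 1 := by linarith
            have h3 : (p : ℝ) / ((p : ℝ) - 1) = 1 / ((p : ℝ) - 1) + 1 := by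
              field_simp
              ring
            rw [h3]
            refine le_trans ?_ (Real.add_one_le_exp (1 / (n : ℝ)))
            have h4 : 1 / ((p : ℝ) - 1) ≤ 1 / n := one_div_le_one_div_of_le hn0 (by linarith)
            linarith
      _ = Real.exp (((P.filter (fun p => ¬ p ≤ n)).card : ℝ) * (1 / n)) := by
          rw [prod_const, ← Real.exp_nat_mul]
      _ ≤ Real.exp 2 := by
          apply Real.exp_le_exp.2
          rw [mul_one_div, div_le_iff₀ hn0]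
          linarith
  · have hp' := hPp p (mem_filter.1 hp).1
    rw [e1 p hp'.1]
    exact zero_le_one.trans (e2 p hp'.1)
  · exact zero_le_one.trans (e2 p (mem_filter.1 hp).2)

theorem loglog (Z : ℕ) (h16 : 16 ≤ Z) :
    2 ≤ ⌈Real.log Z⌉₊ ∧ Real.log (⌈Real.log Z⌉₊ : ℝ) ≤ 2 * Real.log (Real.log Z) ∧
      0 < Real.log (Real.log Z) := by
  have hL := logZ h16
  set L := Real.log Z with hLd
  have h1 : L ≤ ⌈L⌉₊ := Nat.le_ceil L
  have h2 : (⌈L⌉₊ : ℝ) < L + 1 := Nat.ceil_lt_add_one (by linarith)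
  refine ⟨?_, ?_, Real.log_pos (by linarith)⟩
  · have : (1 : ℝ) < ⌈L⌉₊ := by linarith
    have : 1 < ⌈L⌉₊ := by exact_mod_cast this
    omega
  · have e : 2 * Real.log L = Real.log (L ^ 2) := by rw [Real.log_pow]; norm_num
    rw [e]
    apply Real.log_le_log (by linarith)
    nlinarith

end Pool.Agent.Q186.LY

namespace Pool.Agent.Q145.LY

open Finset
open Pool.Agent.Q145.SZ Pool.Agent.Q145.LQ

theorem cb : S_CB := fun y D g hy hD hg => Pool.Agent.Q186.LY.cb0 y D g hy hD hg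

theorem jt : S_JT := by
  obtain ⟨C, hC0, hC⟩ := t_PWC
  refine ⟨max 1 (2 * C * Real.exp 2), le_max_left _ _, fun z h Z h0 hZ h16 => ?_⟩
  obtain ⟨a1, a2, a3⟩ := Pool.Agent.Q186.LY.loglog Z h16
  have h1 := Pool.Agent.Q186.LY.core z h Z h0 hZ h16
  have h2 := (hC _ a1).1
  rw [Pool.Agent.Q272.SZ.vv_PW] at h2
  have h3 : JP z h ≤ (C * (2 * Real.log (Real.log Z))) * Real.exp 2 := by
    refine h1.trans (mul_le_mul_of_nonneg_right (h2.trans ?_) (Real.exp_pos 2).le)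
    exact mul_le_mul_of_nonneg_left a2 hC0.le
  refine h3.trans ?_
  have h4 := le_max_right (1 : ℝ) (2 * C * Real.exp 2)
  nlinarith

end Pool.Agent.Q145.LY
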